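import Mathlib
import Pool.Agent.Helper470.ZA.H20
import Pool.Agent.Helper470.ZA.I2
import Pool.Agent.Helper470.ZA.K2
import Pool.Agent.Helper470.ZA.M3
import Pool.Agent.Helper470.ZA.M4
import Pool.Agent.Helper470.ZA.N3

set_option autoImplicit false

open Finset

namespace Pool.Agent.Results.MP_f5b580_co.AllOddExact

/-- `x` is `r`-admissible: no sum of `r` entries with distinct indices vanishes. -/
def Admissible {n : ℕ} (r : ℕ) (x : Fin n → ℝ) : Prop :=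
  ∀ S : Finset (Fin n), S.card = r → ∑ i ∈ S, x i ≠ 0

open Classical in
/-- `Z x` is the number of index sets `B` with `∑_{i ∈ B} x i = 0` (the empty set is counted). -/
noncomputable def Z {n : ℕ} (x : Fin n → ℝ) : ℕ :=
  (univ.filter (fun B : Finset (Fin n) => ∑ i ∈ B, x i = 0)).card

/-- the set of all values `Z x`, `x ∈ ℝⁿ` an `r`-admissible vector; `f(n,r)` is its maximum. -/
def values (n r : ℕ) : Set ℕ := {k : ℕ | ∃ x : Fin n → ℝ, Admissible r x ∧ Z x = k}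

/-- `d r` is the least positive integer that does not divide `r` (used for `r ≥ 1`). -/
noncomputable def d (r : ℕ) : ℕ := sInf {q : ℕ | 1 ≤ q ∧ ¬ q ∣ r}

/-- `Nstar n r = max (n - r, 2 min (r, n - r))`. -/
def Nstar (n r : ℕ) : ℕ := max (n - r) (2 * min r (n - r))

/-- `V n r = min ((d(r) - 1) n, 4 Nstar(n, r))`. -/
noncomputable def V (n r : ℕ) : ℕ := min ((d r - 1) * n) (4 * Nstar n r)

/-- `y ∈ ℝᴺ` has no zero-sum index set with at least `N - k` elements. -/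
def NoBig {N : ℕ} (k : ℕ) (y : Fin N → ℝ) : Prop :=
  ∀ B : Finset (Fin N), N ≤ B.card + k → ∑ i ∈ B, y i ≠ 0

/-- There is a sequence `α k`, where `α k` is the largest density `Z y / 2^N` over all `N` and all
`y ∈ ℝᴺ` without a zero-sum index set of size at least `N - k`, with `α k ~ 1 / (2 √(π k))`, such that:
(a) for all large `n` and ALL odd `r ≤ n`, `f(n,r) = max (C(n, ⌊n/2⌋), α (n-r) 2^n)` exactly;
(b) for odd `r ≤ (7/8 - δ) n` and `n ≥ n₀(δ)` this is `C(n, ⌊n/2⌋)`;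
(c) `f(n, n-k) = α k 2^n` exactly when `n ≥ 4^(k+1) + k`, and also when `k ≥ k₀(δ)`, `n ≥ (3+δ) k` and
`(d(n-k) - 1) n ≥ (8+δ) k`;
(d) `f(n,r) ~ 2^n √(2/(π V(n,r)))` as `n - r → ∞`, uniformly over all `r ≥ 1`. -/
theorem result : ∃ α : ℕ → ℝ,
    (∀ k : ℕ, IsGreatest {q : ℝ | ∃ (N : ℕ) (y : Fin N → ℝ), NoBig k y ∧ q = (Z y : ℝ) / 2 ^ N} (α k)) ∧
    Filter.Tendsto (fun k : ℕ => α k * (2 * √(Real.pi * k))) Filter.atTop (nhds 1) ∧
    (∃ n0 : ℕ, ∀ n : ℕ, n0 ≤ n → ∀ r : ℕ, Odd r → r ≤ n →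
      ∃ M : ℕ, IsGreatest (values n r) M ∧ (M : ℝ) = max (n.choose (n / 2) : ℝ) (α (n - r) * 2 ^ n)) ∧
    (∀ δ : ℝ, 0 < δ → ∃ n0 : ℕ, ∀ n : ℕ, n0 ≤ n → ∀ r : ℕ, Odd r → (r : ℝ) ≤ (7 / 8 - δ) * n →
      IsGreatest (values n r) (n.choose (n / 2))) ∧
    (∀ k n : ℕ, 4 ^ (k + 1) + k ≤ n → ∃ M : ℕ, IsGreatest (values n (n - k)) M ∧ (M : ℝ) = α k * 2 ^ n) ∧
    (∀ δ : ℝ, 0 < δ → ∃ k0 : ℕ, ∀ k n : ℕ, k0 ≤ k → (3 + δ) * k ≤ n →
      (8 + δ) * k ≤ ((d (n - k) : ℝ) - 1) * n →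
        ∃ M : ℕ, IsGreatest (values n (n - k)) M ∧ (M : ℝ) = α k * 2 ^ n) ∧
    (∀ η : ℝ, 0 < η → ∃ k0 : ℕ, ∀ n r : ℕ, 1 ≤ r → r + k0 ≤ n →
      ∃ M : ℕ, IsGreatest (values n r) M ∧
        |(M : ℝ) / (2 ^ n * √(2 / (Real.pi * V n r))) - 1| ≤ η) := by
  obtain ⟨α, -, hα, hlim⟩ := ZA.fixed_k
  exact ⟨α, ZA.intrinsic α hα, hlim, ZA.odd_all α hα hlim, fun δ hδ => ZA.odd_exact δ hδ, hα,
    fun δ hδ => ZA.ext_range α hα δ hδ, fun η hη => ZA.main η hη⟩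

end Pool.Agent.Results.MP_f5b580_co.AllOddExact
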