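import Mathlib
import Pool.Agent.Helper470.ZA.H20
import Pool.Agent.Helper470.ZA.I2
import Pool.Agent.Helper470.ZA.K2

set_option autoImplicit false

open Finset

namespace Pool.Agent.Results.MP_f5b580_co.AllRanges

/-- `x` is `r`-admissible: no sum of `r` entries with distinct indices vanishes. -/
def Admissible {n : ℕ} (r : ℕ) (x : Fin n → ℝ) : Prop :=
  ∀ S : Finset (Fin n), S.card = r → ∑ i ∈ S, x i ≠ 0

open Classical in
/-- `Z x` is the number of index sets `B` with `∑_{i ∈ B} x i = 0` (the empty set is counted). -/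
noncomputable def Z {n : ℕ} (x : Fin n → ℝ) : ℕ :=
  (univ.filter (fun B : Finset (Fin n) => ∑ i ∈ B, x i = 0)).card

/-- the set of all values `Z x`, `x ∈ ℝⁿ` an `r`-admissible vector; `f(n,r)` is its maximum. -/
def values (n r : ℕ) : Set ℕ := {k : ℕ | ∃ x : Fin n → ℝ, Admissible r x ∧ Z x = k}

/-- `d r` is the least positive integer that does not divide `r` (used for `r ≥ 1`). -/
noncomputable def d (r : ℕ) : ℕ := sInf {q : ℕ | 1 ≤ q ∧ ¬ q ∣ r}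

/-- `Nstar n r = max (n - r, 2 min (r, n - r))`. -/
def Nstar (n r : ℕ) : ℕ := max (n - r) (2 * min r (n - r))

/-- `V n r = min ((d(r) - 1) n, 4 Nstar(n, r))`. -/
noncomputable def V (n r : ℕ) : ℕ := min ((d r - 1) * n) (4 * Nstar n r)

/-- (1) Asymptotic formula `f(n,r) ~ 2^n √(2/(π V(n,r)))` as `n - r → ∞`, uniformly in `1 ≤ r`.
(2) For odd `r ≤ (7/8 - δ) n` and `n ≥ n₀(δ)`: `f(n,r) = C(n, ⌊n/2⌋)` exactly.
(3) For every `k` the sequence `f(n, n-k)/2^n` is constant for `n ≥ 4^(k+1) + k`, and this constant `α k`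
satisfies `α k ~ 1 / (2 √(π k))`. -/
theorem result :
    (∀ η : ℝ, 0 < η → ∃ k0 : ℕ, ∀ n r : ℕ, 1 ≤ r → r + k0 ≤ n →
      ∃ M : ℕ, IsGreatest (values n r) M ∧
        |(M : ℝ) / (2 ^ n * √(2 / (Real.pi * V n r))) - 1| ≤ η) ∧
    (∀ δ : ℝ, 0 < δ → ∃ n0 : ℕ, ∀ n : ℕ, n0 ≤ n → ∀ r : ℕ, Odd r → (r : ℝ) ≤ (7 / 8 - δ) * n →
      IsGreatest (values n r) (n.choose (n / 2))) ∧
    (∃ α : ℕ → ℝ, (∀ k : ℕ, 0 < α k) ∧
      (∀ k n : ℕ, 4 ^ (k + 1) + k ≤ n → ∃ M : ℕ, IsGreatest (values n (n - k)) M ∧ (M : ℝ) = α k * 2 ^ n) ∧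
      Filter.Tendsto (fun k : ℕ => α k * (2 * √(Real.pi * k))) Filter.atTop (nhds 1)) := by
  exact ⟨fun η hη => ZA.main η hη, fun δ hδ => ZA.odd_exact δ hδ, ZA.fixed_k⟩

end Pool.Agent.Results.MP_f5b580_co.AllRanges
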