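import Mathlib
import Pool.Agent.Helper549.ZS.Defs
import Pool.Agent.Helper549.ZS.L
import Pool.Agent.Helper549.ZS.U2
import Pool.Agent.Helper549.ZS.V

set_option autoImplicit false

open Finset

namespace Pool.Agent.Results.MP_f5b580_co.Combined

/-- `x` is `r`-admissible: no sum of `r` entries with distinct indices vanishes. -/
def Admissible {n : ℕ} (r : ℕ) (x : Fin n → ℝ) : Prop :=
  ∀ S : Finset (Fin n), S.card = r → ∑ i ∈ S, x i ≠ 0

open Classical in
/-- `Z x` is the number of index sets `B` with `∑_{i ∈ B} x i = 0` (the empty set is counted). -/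
noncomputable def Z {n : ℕ} (x : Fin n → ℝ) : ℕ :=
  (univ.filter (fun B : Finset (Fin n) => ∑ i ∈ B, x i = 0)).card

theorem Z_eq {n : ℕ} (x : Fin n → ℝ) :
    Z x = Pool.Agent.Helper549.ZS.N x Finset.univ {0} := by
  classical
  unfold Z Pool.Agent.Helper549.ZS.N
  rw [Finset.powerset_univ]
  congr 1

/-- The set of all values `Z x` over `r`-admissible `x ∈ ℝⁿ`; its greatest element is `f(n,r)`. -/
def values (n r : ℕ) : Set ℕ := {k : ℕ | ∃ x : Fin n → ℝ, Admissible r x ∧ Z x = k}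

/-- (1) For every odd `r` and every `n ≥ 200 r`, `f(n,r) = C(n, ⌊n/2⌋)`.
(2) For every odd `n ≥ 3`, `f(n,n-1) = 2^(n-2)`.
(3) For every even `n ≥ 2`, `f(n,n-1) = max (C(n,n/2)) (2^(n-2))`. -/
theorem result :
    (∀ n r : ℕ, Odd r → 200 * r ≤ n → IsGreatest (values n r) (n.choose (n / 2))) ∧
    (∀ n : ℕ, Odd n → 3 ≤ n → IsGreatest (values n (n - 1)) (2 ^ (n - 2))) ∧
    (∀ n : ℕ, Even n → 2 ≤ n →
      IsGreatest (values n (n - 1)) (max (n.choose (n / 2)) (2 ^ (n - 2)))) := by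
  refine ⟨?_, ?_, ?_⟩
  · intro n r hr hn
    constructor
    · obtain ⟨x, hx, hN⟩ := Pool.Agent.Helper549.ZS.L.lower_bound n r hr
      exact ⟨x, hx, by rw [Z_eq, hN]⟩
    · rintro k ⟨x, hx, rfl⟩
      rw [Z_eq]
      exact Pool.Agent.Helper549.ZS.U2.upper_bound n r hr hn x hx
  · intro n hn h3
    constructor
    · obtain ⟨x, hx, hN⟩ := Pool.Agent.Helper549.ZS.V.lower_nm1 n (by omega)
      exact ⟨x, hx, by rw [Z_eq, hN]⟩
    · rintro k ⟨x, hx, rfl⟩
      rw [Z_eq]
      rcases Pool.Agent.Helper549.ZS.V.upper_nm1 n (by omega) x hx with h | ⟨h, _⟩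
      · exact h
      · exact absurd h (Nat.not_even_iff_odd.mpr hn)
  · intro n hn h2
    constructor
    · rcases le_total (n.choose (n / 2)) (2 ^ (n - 2)) with h | h
      · rw [max_eq_right h]
        obtain ⟨x, hx, hN⟩ := Pool.Agent.Helper549.ZS.V.lower_nm1 n (by omega)
        exact ⟨x, hx, by rw [Z_eq, hN]⟩
      · rw [max_eq_left h]
        have hodd : Odd (n - 1) := by
          obtain ⟨k, hk⟩ := hn
          exact ⟨k - 1, by omega⟩
        obtain ⟨x, hx, hN⟩ := Pool.Agent.Helper549.ZS.L.lower_bound n (n - 1) hodd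
        exact ⟨x, hx, by rw [Z_eq, hN]⟩
    · rintro k ⟨x, hx, rfl⟩
      rw [Z_eq]
      rcases Pool.Agent.Helper549.ZS.V.upper_nm1 n (by omega) x hx with h | ⟨_, h⟩
      · exact h.trans (le_max_right _ _)
      · exact h.trans (le_max_left _ _)

end Pool.Agent.Results.MP_f5b580_co.Combined
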