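import Mathlib
import Pool.Agent.Helper549.ZS.Defs
import Pool.Agent.Helper549.ZS.L
import Pool.Agent.Helper549.ZS.U2

set_option autoImplicit false

open Finset

namespace Pool.Agent.Results.MP_f5b580_co.OddR

/-- `x` is `r`-admissible: no sum of `r` entries with distinct indices vanishes. -/
def Admissible {n : ℕ} (r : ℕ) (x : Fin n → ℝ) : Prop :=
  ∀ S : Finset (Fin n), S.card = r → ∑ i ∈ S, x i ≠ 0

open Classical in
/-- `Z x` is the number of index sets `B` with `∑_{i ∈ B} x i = 0` (the empty set is counted). -/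
noncomputable def Z {n : ℕ} (x : Fin n → ℝ) : ℕ :=
  (univ.filter (fun B : Finset (Fin n) => ∑ i ∈ B, x i = 0)).card

theorem Z_eq {n : ℕ} (x : Fin n → ℝ) :
    Z x = Pool.Agent.Helper549.ZS.N x Finset.univ {0} := by
  classical
  unfold Z Pool.Agent.Helper549.ZS.N
  rw [Finset.powerset_univ]
  congr 1

/-- For every odd `r` and every `n ≥ 200 r`, the maximum `f(n,r)` of `Z x` over all `r`-admissible
`x ∈ ℝⁿ` is the central binomial coefficient `C(n, ⌊n/2⌋)`. -/
theorem result (n r : ℕ) (hr : Odd r) (hn : 200 * r ≤ n) :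
    IsGreatest {k : ℕ | ∃ x : Fin n → ℝ, Admissible r x ∧ Z x = k} (n.choose (n / 2)) := by
  constructor
  · obtain ⟨x, hx, hN⟩ := Pool.Agent.Helper549.ZS.L.lower_bound n r hr
    exact ⟨x, hx, by rw [Z_eq, hN]⟩
  · rintro k ⟨x, hx, rfl⟩
    rw [Z_eq]
    exact Pool.Agent.Helper549.ZS.U2.upper_bound n r hr hn x hx

end Pool.Agent.Results.MP_f5b580_co.OddR
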